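import Pool.Agent.Y879.PR.HLd

set_option autoImplicit false

/-!
Almost prime twins `p, p + 2` between `n ^ 3` and `(n + 1) ^ 3`, for EVERY large `n`: their asymptotic number,
with the twin prime constant, their density in all intervals of length at least `n ^ θ`, and the exponential
(Gamma) laws of their gaps.
-/

namespace Pool.Agent.Results.MP_d610d0_nt.GapLawTwins

open Finset Filter
open Pool.Agent.Y879.PR Pool.Agent.W123.RP Pool.Agent.H373R2.T7

/-- the twins larger than `5` are `6 x + B i` -/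
def B : Fin 2 → ℕ := ![5, 7]

/-- neither `6 x + 5` nor `6 x + 7` has a prime factor `p ≤ n ^ (1 / r)` -/
def Good (n r x : ℕ) : Prop :=
  ∀ p : ℕ, p.Prime → (p : ℝ) ≤ (n : ℝ) ^ (1 / (r : ℝ)) → ∀ i, ¬ p ∣ 6 * x + B i

/-- the density of the good numbers: the product of `1 - 2 / p` over the primes `3 < p ≤ n ^ (1 / r)` -/
noncomputable def V (n r : ℕ) : ℝ :=
  ∏ p ∈ (Icc 1 ⌊(n : ℝ) ^ (1 / (r : ℝ))⌋₊).filter Nat.Prime, (1 - ((if p ∣ 6 then 0 else 2 : ℕ) : ℝ) / p)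

open Classical in
/-- the number of the good `x` in `(u, u + Y]` with fewer than `j` good numbers in `[x - T, x)` -/
noncomputable def Near (n r j T u Y : ℕ) : ℕ :=
  ((Ioc u (u + Y)).filter (fun x => Good n r x ∧ ((Ico (x - T) x).filter (Good n r)).card < j)).card

open Classical in
/-- the number of the good `x` with `n ^ 3 < 6 x + 5` and `6 x + 7 < (n + 1) ^ 3` -/
noncomputable def Num (n r : ℕ) : ℕ :=
  ((range ((n + 1) ^ 3)).filter (fun x => n ^ 3 < 6 * x + 5 ∧ 6 * x + 7 < (n + 1) ^ 3 ∧ Good n r x)).card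

lemma sq6 : Squarefree 6 := by
  rw [Nat.squarefree_iff_minSqFac]
  decide +kernel

lemma tup : Tup 6 B :=
  ⟨sq6, by decide, fun p hp h => by
    have := hp.two_le
    have h3 : p = 2 := by omega
    rw [h3]
    norm_num, by decide, by decide, by norm_num⟩

lemma dif6 (p : ℕ) (hp : p.Prime) (h : ¬ p ∣ 6) (d : ℤ) (hd : d ∣ 36) : ¬ (p : ℤ) ∣ d := by
  intro h1
  have h2 : (p : ℤ) ∣ ((6 ^ 2 : ℕ) : ℤ) := by
    norm_num
    exact h1.trans hd
  have h3 : p ∣ 6 ^ 2 := by exact_mod_cast h2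
  exact h (hp.dvd_of_dvd_pow h3)

lemma V_eq (n r : ℕ) : V n r = Vq (Pool.Agent.W123.RU.Poly.Q (tf 6 B)) ⌊(n : ℝ) ^ (1 / (r : ℝ))⌋₊ := by
  unfold V Vq
  apply Finset.prod_congr rfl
  intro p hp
  have hpp := (mem_pz.1 hp).2
  by_cases hpM : p ∣ 6
  · rw [if_pos hpM, tup.nu_zero p hpp hpM]
  · rw [if_neg hpM, tup.nu_eq p hpp hpM]
    intro i j hij
    apply dif6 p hpp hpM
    revert i j
    decide

lemma near_eq (n r j T u Y : ℕ) : Near n r j T u Y = TNear 6 B n r j T u Y := rfl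

/-- the number, in terms of `x` -/
lemma num_eq (n r : ℕ) (hn : 3 ≤ n) :
    Num n r = Near n r 1 0 ((n ^ 3 - 5) / 6) (((n + 1) ^ 3 - 8) / 6 - (n ^ 3 - 5) / 6) := by
  classical
  have h1 : 27 ≤ n ^ 3 := by
    calc 27 = 3 ^ 3 := by norm_num
      _ ≤ n ^ 3 := Nat.pow_le_pow_left hn 3
  have h2 : n ^ 3 + 5 ≤ (n + 1) ^ 3 := by
    have h3 : (n + 1) ^ 3 = n ^ 3 + (3 * n ^ 2 + 3 * n + 1) := by ring
    rw [h3]
    omega
  obtain ⟨a, ha⟩ : ∃ a, a = n ^ 3 := ⟨_, rfl⟩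
  obtain ⟨b, hb⟩ : ∃ b, b = (n + 1) ^ 3 := ⟨_, rfl⟩
  unfold Num Near
  rw [← ha, ← hb] at h2
  rw [← ha] at h1
  rw [← ha, ← hb]
  have hle : (a - 5) / 6 ≤ (b - 8) / 6 := Nat.div_le_div_right (by omega)
  rw [Nat.add_sub_cancel' hle]
  congr 1
  ext x
  simp only [Finset.mem_filter, Finset.mem_range, Finset.mem_Ioc]
  constructor
  · rintro ⟨h3, h4, h5, h6⟩
    refine ⟨⟨by omega, by omega⟩, h6, ?_⟩
    rw [Nat.sub_zero, Finset.Ico_self, Finset.filter_empty, Finset.card_empty]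
    norm_num
  · rintro ⟨⟨h3, h4⟩, h5, _⟩
    exact ⟨by omega, by omega, by omega, h5⟩

/-- **Almost prime twins between `n ^ 3` and `(n + 1) ^ 3`.** Let `C` be the twin prime constant. For all
`θ > 0`, `0 < ε ≤ 1`, `x₀` and `k₀` there is `r₀` such that for every `r ≥ r₀` and EVERY large `n`: (1) each
twin prime pair `p, p + 2` with `n ^ 3 < p`, `p + 2 < (n + 1) ^ 3` is `6 x + 5, 6 x + 7` with a good `x`;
(2) if `x` is good and `6 x + 7 < (n + 1) ^ 3`, the two numbers have at most `3 r + 1` prime factors; (3) the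
number of the good pairs between `n ^ 3` and `(n + 1) ^ 3` is `(1 + η) 6 C n ^ 2 (r e ^ (-γ) / log n) ^ 2` with
`|η| ≤ ε`; (4) in every interval `(u, u + Y]` with `Y ≥ n ^ θ`, for all `T` and all `j ≤ k₀` (and for all `j` if
`T V ≤ x₀`), the number of the good `x` with fewer than `j` good numbers in `[x - T, x)` is
`Y V (e ^ (-TV) ∑ i < j, (TV) ^ i / i! + η)` with `|η| ≤ ε`. -/
theorem result : ∃ C : ℝ, 0 < C ∧
    Tendsto (fun N : ℕ => ∏ p ∈ (Finset.range N).filter (fun p => p.Prime ∧ 2 < p),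
      (1 - 1 / ((p : ℝ) - 1) ^ 2)) atTop (nhds C) ∧
    ∀ (θ x₀ ε : ℝ) (k₀ : ℕ), 0 < θ → 0 < ε → ε ≤ 1 →
    ∃ r₀ : ℕ, ∀ r : ℕ, r₀ ≤ r → ∃ n₀ : ℕ, ∀ n : ℕ, n₀ ≤ n →
      (∀ p : ℕ, p.Prime → (p + 2).Prime → n ^ 3 < p → ∃ x : ℕ, p = 6 * x + 5 ∧ Good n r x) ∧
      (∀ x : ℕ, 6 * x + 7 < (n + 1) ^ 3 → Good n r x → ∀ i,
        (6 * x + B i).primeFactorsList.length ≤ 3 * r + 1) ∧
      |(Num n r : ℝ) * Real.log n ^ 2 -
          6 * C * (n : ℝ) ^ 2 * (r * Real.exp (-Real.eulerMascheroniConstant)) ^ 2| ≤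
        ε * (6 * C * (n : ℝ) ^ 2 * (r * Real.exp (-Real.eulerMascheroniConstant)) ^ 2) ∧
      ∀ u Y j T : ℕ, (n : ℝ) ^ θ ≤ Y → (j ≤ k₀ ∨ T * V n r ≤ x₀) →
        |(Near n r j T u Y : ℝ) - Y * V n r *
            ∑ i ∈ range j, Real.exp (-(T * V n r)) * (T * V n r) ^ i / i.factorial| ≤
          ε * (Y * V n r) := by
  obtain ⟨S, hS0, hS⟩ := H2_lim
  refine ⟨S, hS0, ?_, ?_⟩
  · refine hS.congr ?_
    intro N
    unfold H2
    apply Finset.prod_congr rfl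
    intro p hp
    simp only [Finset.mem_filter] at hp
    have h3 : (2 : ℝ) < p := by exact_mod_cast hp.2.2
    have h0 : (p : ℝ) ≠ 0 := by positivity
    have h1 : (p : ℝ) - 1 ≠ 0 := by linarith
    field_simp
    ring
  intro θ x₀ ε k₀ hθ hε hε1
  obtain ⟨r1, hr12, h1⟩ := tup_gap tup (min θ 1) (ε / 16) x₀ (max k₀ 1) (lt_min hθ (by norm_num))
    (by positivity)
  refine ⟨r1, ?_⟩
  intro r hr
  have hr2 : 2 ≤ r := hr12.trans hr
  have hrr : (2 : ℝ) ≤ r := by exact_mod_cast hr2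
  obtain ⟨v, hv, hev⟩ := h1 r hr
  obtain ⟨c, hc⟩ : ∃ c, c = (r : ℝ) * Real.exp (-Real.eulerMascheroniConstant) := ⟨_, rfl⟩
  have hc0 : 0 < c := by
    rw [hc]
    have := Real.exp_pos (-Real.eulerMascheroniConstant)
    positivity
  have hlim := V6_lim S hS r hr2
  rw [← hc] at hlim
  have hW0 : 0 < 12 * S * c ^ 2 := by positivity
  have hev2 := (Metric.tendsto_nhds.1 hlim) (ε / 16 * (12 * S * c ^ 2)) (by positivity)
  obtain ⟨N0, hN0⟩ := eventually_atTop.1 (hev.and hev2)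
  refine ⟨max N0 (max 100 ⌈96 / ε⌉₊), ?_⟩
  intro n hn
  obtain ⟨⟨g1, g2, g3⟩, g4⟩ := hN0 n ((le_max_left _ _).trans hn)
  have hn100 : 100 ≤ n := ((le_max_left _ _).trans (le_max_right _ _)).trans hn
  have hnε : 96 / ε ≤ n := by
    have h5 : ⌈96 / ε⌉₊ ≤ n := ((le_max_right _ _).trans (le_max_right _ _)).trans hn
    exact (Nat.le_ceil _).trans (by exact_mod_cast h5)
  have hnr : (100 : ℝ) ≤ n := by exact_mod_cast hn100
  have hn0 : (0 : ℝ) < n := by linarith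
  have hpow : ((n : ℝ) ^ (1 / (r : ℝ))) ^ r = n := by
    rw [← Real.rpow_natCast, ← Real.rpow_mul (by linarith), one_div, inv_mul_cancel₀ (by linarith),
      Real.rpow_one]
  have hzn : (n : ℝ) ^ (1 / (r : ℝ)) ≤ n := by
    calc (n : ℝ) ^ (1 / (r : ℝ)) ≤ (n : ℝ) ^ (1 : ℝ) := by
          apply Real.rpow_le_rpow_of_exponent_le (by linarith)
          rw [div_le_one (by linarith)]
          linarith
      _ = n := Real.rpow_one _
  have hVpos : 0 < V n r := by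
    rw [V_eq]
    refine lt_of_lt_of_le ?_ g1
    have : 0 < Real.log n := Real.log_pos (by linarith)
    positivity
  have hlaw : ∀ u Y j T : ℕ, (n : ℝ) ^ (min θ 1) ≤ Y → (j ≤ max k₀ 1 ∨ T * V n r ≤ x₀) →
      |(Near n r j T u Y : ℝ) - Y * V n r *
          ∑ i ∈ range j, Real.exp (-(T * V n r)) * (T * V n r) ^ i / i.factorial| ≤
        ε / 16 * (Y * V n r) := by
    intro u Y j T hY hj
    rw [V_eq] at hj ⊢
    exact g3 u Y j T hY hj
  refine ⟨?_, ?_, ?_, ?_⟩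
  · intro p p0 p2 hp
    have hbig : n < n ^ 3 := by
      calc n = n ^ 1 := (pow_one n).symm
        _ < n ^ 3 := Nat.pow_lt_pow_right (by omega) (by norm_num)
    have hnp : n < p := by omega
    have hnd : ∀ q m : ℕ, q.Prime → m.Prime → q < m → ¬ q ∣ m := by
      intro q m hq hm hlt hd
      have := (Nat.prime_dvd_prime_iff_eq hq hm).1 hd
      omega
    have hmod : p % 6 = 5 := by
      have e1 := hnd 2 p Nat.prime_two p0 (by omega)
      have e2 := hnd 3 p Nat.prime_three p0 (by omega)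
      have e3 := hnd 3 (p + 2) Nat.prime_three p2 (by omega)
      have h8 : p % 6 < 6 := Nat.mod_lt _ (by norm_num)
      interval_cases h9 : p % 6 <;> omega
    refine ⟨p / 6, by omega, ?_⟩
    intro q hq hqz i hd
    have hqn : q ≤ n := by
      have : (q : ℝ) ≤ n := hqz.trans hzn
      exact_mod_cast this
    fin_cases i
    · change q ∣ 6 * (p / 6) + 5 at hd
      rw [show 6 * (p / 6) + 5 = p by omega] at hd
      exact hnd q _ hq p0 (by omega) hd
    · change q ∣ 6 * (p / 6) + 7 at hd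
      rw [show 6 * (p / 6) + 7 = p + 2 by omega] at hd
      exact hnd q _ hq p2 (by omega) hd
  · intro x hx hg i
    have hBi : 5 ≤ B i ∧ B i ≤ 7 := by fin_cases i <;> simp [B]
    refine Pool.Agent.Y879.GL.few_of_rough ((n : ℝ) ^ (1 / (r : ℝ))) (by linarith) _ (3 * r + 1)
      (by omega) ?_ ?_
    · rw [pow_succ, mul_comm 3 r, pow_mul, hpow]
      have h4 : ((6 * x + B i : ℕ) : ℝ) ≤ ((n + 1) ^ 3 : ℕ) := by exact_mod_cast (by omega)
      push_cast at h4 ⊢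
      have h5 : ((n : ℝ) + 1) ^ 3 ≤ (2 * n) ^ 3 := by
        apply pow_le_pow_left₀ (by linarith)
        linarith
      have h6 : (n : ℝ) ^ 3 * 40 ≤ (n : ℝ) ^ 3 * (n : ℝ) ^ (1 / (r : ℝ)) :=
        mul_le_mul_of_nonneg_left g2.le (by positivity)
      have h7 : (2 * (n : ℝ)) ^ 3 = (n : ℝ) ^ 3 * 8 := by ring
      have h8 : 0 < (n : ℝ) ^ 3 := by positivity
      linarith
    · intro q hq hqd
      by_contra hcon
      rw [not_lt] at hcon
      exact hg q hq hcon i hqd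
  · -- the number
    rw [← hc]
    have hnum := num_eq n r (by omega)
    obtain ⟨u, hu⟩ : ∃ u, u = (n ^ 3 - 5) / 6 := ⟨_, rfl⟩
    obtain ⟨w, hw⟩ : ∃ w, w = ((n + 1) ^ 3 - 8) / 6 := ⟨_, rfl⟩
    rw [← hu, ← hw] at hnum
    have hexp : (n + 1) ^ 3 = n ^ 3 + (3 * n ^ 2 + 3 * n + 1) := by ring
    obtain ⟨Y, hY⟩ : ∃ Y, Y = w - u := ⟨_, rfl⟩
    rw [← hY] at hnum
    have hn5 : 11 ≤ n ^ 3 := by
      calc 11 ≤ 100 ^ 3 := by norm_num
        _ ≤ n ^ 3 := Nat.pow_le_pow_left hn100 3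
    have hY1 : 6 * Y ≤ 3 * n ^ 2 + 3 * n + 13 := by
      rw [hexp] at hw
      omega
    have hY2 : 3 * n ^ 2 + 3 * n + 1 ≤ 6 * Y + 12 := by
      rw [hexp] at hw
      omega
    have hY1r : 6 * (Y : ℝ) ≤ 3 * (n : ℝ) ^ 2 + 3 * n + 13 := by
      exact_mod_cast hY1
    have hY2r : 3 * (n : ℝ) ^ 2 + 3 * n + 1 ≤ 6 * (Y : ℝ) + 12 := by
      exact_mod_cast hY2
    have q1 : (n : ℝ) * 100 ≤ (n : ℝ) ^ 2 := by
      rw [sq]
      exact mul_le_mul_of_nonneg_left hnr hn0.le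
    have q3 : (n : ℝ) * (96 / ε) ≤ (n : ℝ) ^ 2 := by
      rw [sq]
      exact mul_le_mul_of_nonneg_left hnε (by positivity)
    have q3' : 96 * (n : ℝ) ≤ ε * (n : ℝ) ^ 2 := by
      have : (n : ℝ) * (96 / ε) * ε ≤ (n : ℝ) ^ 2 * ε := mul_le_mul_of_nonneg_right q3 hε.le
      have e : (n : ℝ) * (96 / ε) * ε = 96 * (n : ℝ) := by field_simp
      linarith
    have hn2 : 0 < (n : ℝ) ^ 2 := by positivity
    have hYd : |(Y : ℝ) - (n : ℝ) ^ 2 / 2| ≤ ε / 4 * ((n : ℝ) ^ 2 / 2) := by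
      rw [abs_le]
      constructor <;> linarith
    have hYθ : (n : ℝ) ^ (min θ 1) ≤ Y := by
      have h5 : (n : ℝ) ^ (min θ 1) ≤ (n : ℝ) ^ (1 : ℝ) :=
        Real.rpow_le_rpow_of_exponent_le (by linarith) (min_le_right _ _)
      rw [Real.rpow_one] at h5
      linarith
    have h5 := hlaw u Y 1 0 hYθ (Or.inl (le_max_right _ _))
    rw [← hnum] at h5
    simp only [Nat.cast_zero, zero_mul, neg_zero, Real.exp_zero, Finset.sum_range_one, pow_zero, mul_one,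
      Nat.factorial_zero, Nat.cast_one, div_one] at h5
    rw [Real.dist_eq] at g4
    have hVP : V n r = ∏ p ∈ pz ⌊(n : ℝ) ^ (1 / (r : ℝ))⌋₊, (1 - (nu6 p : ℝ) / p) := rfl
    rw [← hVP] at g4
    have hlog : 0 < Real.log n := Real.log_pos (by linarith)
    obtain ⟨G, hG⟩ : ∃ G : ℝ, G = Num n r := ⟨_, rfl⟩
    rw [← hG] at h5 ⊢
    have s1 : |G * Real.log n ^ 2 - Y * (V n r * Real.log n ^ 2)| ≤
        ε / 4 / 4 * (Y * (V n r * Real.log n ^ 2)) := by
      have e1 : G * Real.log n ^ 2 - Y * (V n r * Real.log n ^ 2) = (G - Y * V n r) * Real.log n ^ 2 := by ring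
      have e2 : ε / 4 / 4 * (Y * (V n r * Real.log n ^ 2)) = (ε / 16 * (Y * V n r)) * Real.log n ^ 2 := by ring
      rw [e1, e2, abs_mul, abs_of_pos (by positivity : 0 < Real.log n ^ 2)]
      exact mul_le_mul_of_nonneg_right h5 (by positivity)
    have s2 := two_step _ (Y : ℝ) _ (12 * S * c ^ 2) (ε / 4) (by positivity)
      (by linarith) (Nat.cast_nonneg _) hW0.le s1 (g4.le.trans (le_of_eq (by ring)))
    rw [mul_comm (Y : ℝ)] at s2
    have s3 := two_step _ _ (Y : ℝ) ((n : ℝ) ^ 2 / 2) ε hε hε1 hW0.le (by positivity) s2 hYd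
    have e3 : 12 * S * c ^ 2 * ((n : ℝ) ^ 2 / 2) = 6 * S * (n : ℝ) ^ 2 * c ^ 2 := by ring
    rw [e3] at s3
    exact s3
  · intro u Y j T hY hj
    have hY' : (n : ℝ) ^ (min θ 1) ≤ Y :=
      (Real.rpow_le_rpow_of_exponent_le (by linarith) (min_le_left _ _)).trans hY
    refine (hlaw u Y j T hY' ?_).trans ?_
    · rcases hj with h5 | h5
      · exact Or.inl (h5.trans (le_max_left _ _))
      · exact Or.inr h5
    · exact mul_le_mul_of_nonneg_right (by linarith) (by positivity)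

end Pool.Agent.Results.MP_d610d0_nt.GapLawTwins
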