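import Pool.Agent.Y816.PD.UniS

set_option autoImplicit false

/-!
# Twin almost primes between consecutive cubes with restricted digits

For every large `n` the pairs `n ^ 3 + j, n ^ 3 + j + 2` between `n ^ 3` and `(n + 1) ^ 3` are considered, where
the `i`-th digit of `j` in base `b` belongs to an arbitrary set `A i` for all `i < K`, `K = log_b (3 n ^ 2)` (integer
part), the product of the `|A i|` being at least `exp (- c K) b ^ K`.
-/

namespace Pool.Agent.Results.MP_d610d0_nt.RestrictedDigits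

open Finset Filter
open Pool.Agent.Y816.PD (ND NA)

/-- All prime factors of `n ^ 3 + j` and of `n ^ 3 + j + 2` are larger than `j ^ (1 / r)`. -/
def R (n r : ℕ) : Set ℕ := {j | ∀ p : ℕ, p.Prime → (p ∣ n ^ 3 + j ∨ p ∣ n ^ 3 + j + 2) → j < p ^ r}

/-- `n ^ 3 < n ^ 3 + j < n ^ 3 + j + 2 < (n + 1) ^ 3`, all prime factors of `n ^ 3 + j` and of
`n ^ 3 + j + 2` are larger than `y ^ (1 / r)`, and these numbers have at most `r` prime factors. -/
def P (n r y : ℕ) : Set ℕ := {j | (0 < j ∧ n ^ 3 + j + 2 < (n + 1) ^ 3) ∧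
  (∀ p : ℕ, p.Prime → (p ∣ n ^ 3 + j ∨ p ∣ n ^ 3 + j + 2) → y < p ^ r) ∧
  (n ^ 3 + j).primeFactorsList.length ≤ r ∧ (n ^ 3 + j + 2).primeFactorsList.length ≤ r}

/-- **Twin almost primes between consecutive cubes with restricted digits.** -/
theorem result :
    ∃ c : ℝ, 0 < c ∧ ∃ r₀ : ℕ, 2 ≤ r₀ ∧ ∀ r : ℕ, r₀ ≤ r →
      (∀ n j : ℕ, (n ^ 3 + j).Prime → (n ^ 3 + j + 2).Prime → j ∈ R n r) ∧
      ∀ b : ℕ, 2 ≤ b → ∃ κ C : ℝ, 0 < κ ∧ 0 < C ∧ ∀ᶠ n : ℕ in atTop, ∀ K : ℕ, K = Nat.log b (3 * n ^ 2) →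
        ∀ A : ℕ → Finset ℕ, (∀ i < K, A i ⊆ range b) → (b : ℝ) ^ K ≤ Real.exp (c * K) * NA K A →
        ((∃ d ∈ A 0, (n ^ 3 + d).Coprime b ∧ (n ^ 3 + d + 2).Coprime b) → (∃ d ∈ A (K - 1), d ≠ 0) →
          κ * NA K A / (K : ℝ) ^ 2 ≤ ND b K A (P n r (b ^ K))) ∧
        (ND b K A (R n r) : ℝ) ≤ C * NA K A / (K : ℝ) ^ 2 := by
  obtain ⟨c, hc, r₀, hr₀, h⟩ := Pool.Agent.Y816.PD.uni_shift {0, 2}
    (Pool.Agent.Y816.PD.adm2 {0, 2} 3 11 (by decide) (by decide) (by decide)) 2 (by decide) (by norm_num) 3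
  refine ⟨c, hc, r₀, hr₀, fun r hr => ⟨fun n j h1 h2 p hp hd => ?_, fun b hb => ?_⟩⟩
  · have h2r : 2 ≤ r := hr₀.trans hr
    have h3 : j ≤ p := by
      rcases hd with hd | hd
      · rw [(Nat.prime_dvd_prime_iff_eq hp h1).1 hd]
        omega
      · rw [(Nat.prime_dvd_prime_iff_eq hp h2).1 hd]
        omega
    exact lt_of_le_of_lt h3 (lt_self_pow₀ hp.one_lt (by omega))
  · obtain ⟨κ, C, hκ, hC, h1⟩ := h r hr b hb
    refine ⟨κ, C, hκ, hC, ?_⟩
    obtain ⟨K0, hK0⟩ := eventually_atTop.1 h1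
    filter_upwards [eventually_ge_atTop (b ^ (K0 + 2))] with n hn K hK A hA hprod
    have hn1 : 1 ≤ n := le_trans (Nat.one_le_pow _ _ (by omega)) hn
    have hn2 : n ≤ 3 * n ^ 2 := by nlinarith
    have hKK : K0 + 2 ≤ K := by
      rw [hK]
      exact Nat.le_log_of_pow_le (by omega) (hn.trans hn2)
    have hb1 : b ^ K ≤ 3 * n ^ 2 := by
      rw [hK]
      exact Nat.pow_log_le_self b (by positivity)
    have hb2 : 3 * n ^ 2 < b ^ (K + 1) := by
      rw [hK]
      exact Nat.lt_pow_succ_log_self (by omega) _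
    have hN : n ^ 3 ≤ b ^ (3 * K) := by
      calc n ^ 3 ≤ n ^ 4 := Nat.pow_le_pow_right hn1 (by norm_num)
        _ ≤ (3 * n ^ 2) * (3 * n ^ 2) := by
          have : (3 * n ^ 2) * (3 * n ^ 2) = 9 * n ^ 4 := by ring
          omega
        _ ≤ b ^ (K + 1) * b ^ (K + 1) := Nat.mul_le_mul hb2.le hb2.le
        _ = b ^ (2 * K + 2) := by rw [← pow_add]; congr 1; ring
        _ ≤ b ^ (3 * K) := Nat.pow_le_pow_right (by omega) (by omega)
    obtain ⟨h2, h3⟩ := hK0 K (by omega) (n ^ 3) hN A hA hprod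
    constructor
    · rintro ⟨d, hd, hd1, hd2⟩ htop
      refine (h2 ⟨d, hd, ?_⟩ htop).trans ?_
      · intro h hh
        simp only [mem_insert, mem_singleton] at hh
        rcases hh with rfl | rfl
        · exact hd1
        · exact hd2
      · have h4 := Pool.Agent.Y816.PD.ND_mono' (b := b) (K := K) (A := A)
          (S := {j | b ^ (K - 1) ≤ j ∧ ∀ h ∈ ({0, 2} : Finset ℕ), (∀ p : ℕ, p.Prime → p ∣ n ^ 3 + j + h →
            b ^ K < p ^ r) ∧ (n ^ 3 + j + h).primeFactorsList.length ≤ r}) (T := P n r (b ^ K))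
          (fun j hjK hj => by
            obtain ⟨hj1, hj2⟩ := hj
            have h5 := hj2 0 (by simp)
            have h6 := hj2 2 (by simp)
            rw [add_zero] at h5
            have h7 : 0 < b ^ (K - 1) := by positivity
            refine ⟨⟨by omega, ?_⟩, fun p hp hd => ?_, h5.2, h6.2⟩
            · have h8 : (n + 1) ^ 3 = n ^ 3 + 3 * n ^ 2 + 3 * n + 1 := by ring
              omega
            · rcases hd with hd | hd
              · exact h5.1 p hp hd
              · exact h6.1 p hp hd)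
        exact_mod_cast h4
    · refine le_trans ?_ h3
      have h4 := Pool.Agent.Y816.PD.ND_mono' (b := b) (K := K) (A := A) (S := R n r)
        (T := {j | ∀ h ∈ ({0, 2} : Finset ℕ), ∀ p : ℕ, p.Prime → p ∣ n ^ 3 + j + h → j < p ^ r})
        (fun j _ hj h hh p hp hd => by
          simp only [mem_insert, mem_singleton] at hh
          rcases hh with rfl | rfl
          · exact hj p hp (Or.inl hd)
          · exact hj p hp (Or.inr hd))
      exact_mod_cast h4

end Pool.Agent.Results.MP_d610d0_nt.RestrictedDigits
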